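import Pool.Agent.Helper783_UN.Mom

/-!
# Almost all of the random numbers are absolutely normal
-/

set_option autoImplicit false

open MeasureTheory Filter Topology Set

namespace Pool.Agent.Helper783_UN

open Pool.Agent.H493R3

/-- the forced places are sparse -/
def Sparse (S : Set ℕ) : Prop := ∀ m : ℕ, 1 ≤ m → (2 ^ (kf S m)) ^ 4 ≤ 16 * m

theorem moment_sq (S : Set ℕ) (hS : Sparse S) (h b : ℕ) (hh : 1 ≤ h) (hb : 2 ≤ b) :
    ∃ C : ℝ, 0 ≤ C ∧ ∀ n : ℕ, 1 ≤ n →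
      ∫⁻ ω, ENNReal.ofReal (‖WW h b (n ^ 2) (X S ω)‖ ^ 2 / (n : ℝ) ^ 4) ∂PP ≤
        ENNReal.ofReal (C * (1 / (n : ℝ) ^ (3 / 2 : ℝ))) := by
  have hC1 : (1 : ℝ) ≤ ((b + 1 + 7 * h : ℕ) : ℝ) := by exact_mod_cast (by omega : 1 ≤ b + 1 + 7 * h)
  obtain ⟨C0, hC0⟩ : ∃ C0 : ℝ, C0 = ((b + 1 + 7 * h : ℕ) : ℝ) := ⟨_, rfl⟩
  rw [← hC0] at hC1
  refine ⟨4 * C0 + 2, by positivity, fun n hn => ?_⟩
  have hnr : (1 : ℝ) ≤ n := by exact_mod_cast hn
  have hn0 : (0 : ℝ) < n := by linarith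
  obtain ⟨m, hm⟩ : ∃ m, m = (b + 1) * n ^ 2 + 7 * h := ⟨_, rfl⟩
  have h1 : 7 * h * n ^ 2 * b ^ (n ^ 2) ≤ 2 ^ m := by
    have e1 : 7 * h ≤ 2 ^ (7 * h) := Nat.lt_two_pow_self.le
    have e2 : n ^ 2 ≤ 2 ^ (n ^ 2) := Nat.lt_two_pow_self.le
    have e3 : b ^ (n ^ 2) ≤ 2 ^ (b * n ^ 2) := by
      rw [pow_mul]
      exact Nat.pow_le_pow_left Nat.lt_two_pow_self.le _
    calc 7 * h * n ^ 2 * b ^ (n ^ 2) ≤ 2 ^ (7 * h) * 2 ^ (n ^ 2) * 2 ^ (b * n ^ 2) :=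
          Nat.mul_le_mul (Nat.mul_le_mul e1 e2) e3
      _ = 2 ^ m := by
          rw [← pow_add, ← pow_add, hm]
          congr 1
          ring
  have h2 := moment S h b (n ^ 2) m hh hb (Nat.one_le_pow _ _ hn) h1
  have h3 : ∀ ω, ENNReal.ofReal (‖WW h b (n ^ 2) (X S ω)‖ ^ 2 / (n : ℝ) ^ 4) =
      ENNReal.ofReal (1 / (n : ℝ) ^ 4) * ENNReal.ofReal (‖WW h b (n ^ 2) (X S ω)‖ ^ 2) := by
    intro ω
    rw [← ENNReal.ofReal_mul (by positivity)]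
    congr 1
    ring
  simp only [h3]
  rw [lintegral_const_mul' _ _ ENNReal.ofReal_ne_top]
  refine (mul_le_mul_right h2 _).trans ?_
  rw [← ENNReal.ofReal_mul (by positivity)]
  apply ENNReal.ofReal_le_ofReal
  -- the sparseness
  have h4 : (2 : ℝ) ^ (kf S m) ≤ 2 * C0 * Real.sqrt n := by
    have h5 := hS m (by rw [hm]; exact le_trans (by omega : 1 ≤ 7 * h) (Nat.le_add_left _ _))
    have h6 : ((2 : ℝ) ^ (kf S m)) ^ 4 ≤ 16 * m := by exact_mod_cast h5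
    have h7 : (m : ℝ) ≤ C0 * n ^ 2 := by
      rw [hm, hC0]
      push_cast
      have : (7 : ℝ) * h ≤ 7 * h * n ^ 2 := by
        have h8 : (1 : ℝ) ≤ (n : ℝ) ^ 2 := one_le_pow₀ hnr
        have h9 : (0 : ℝ) ≤ 7 * h := by positivity
        nlinarith
      nlinarith
    have h8 : ((2 : ℝ) ^ (kf S m)) ^ 4 ≤ (2 * C0 * Real.sqrt n) ^ 4 := by
      have h9 : (2 * C0 * Real.sqrt n) ^ 4 = 16 * C0 ^ 4 * n ^ 2 := by
        have : Real.sqrt n ^ 4 = (n : ℝ) ^ 2 := by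
          have := Real.sq_sqrt hn0.le
          calc Real.sqrt n ^ 4 = (Real.sqrt n ^ 2) ^ 2 := by ring
            _ = _ := by rw [this]
        rw [mul_pow, mul_pow, this]
        ring
      rw [h9]
      have h10 : C0 ≤ C0 ^ 4 := by
        have : C0 * 1 ≤ C0 * C0 ^ 3 := mul_le_mul_of_nonneg_left (one_le_pow₀ hC1) (by linarith)
        calc C0 = C0 * 1 := by ring
          _ ≤ C0 * C0 ^ 3 := this
          _ = C0 ^ 4 := by ring
      have h11 : C0 * (n : ℝ) ^ 2 ≤ C0 ^ 4 * n ^ 2 := mul_le_mul_of_nonneg_right h10 (by positivity)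
      linarith
    exact le_of_pow_le_pow_left₀ (by norm_num) (by positivity) h8
  have hrp : (n : ℝ) ^ (3 / 2 : ℝ) * Real.sqrt n = n ^ 2 := by
    rw [Real.sqrt_eq_rpow, ← Real.rpow_add hn0]
    norm_num
  have hrp0 : (0 : ℝ) < (n : ℝ) ^ (3 / 2 : ℝ) := Real.rpow_pos_of_pos hn0 _
  have hs0 : 1 ≤ Real.sqrt n := by
    rw [Real.one_le_sqrt]; exact hnr
  rw [mul_one_div, le_div_iff₀ hrp0, one_div]
  rw [inv_mul_eq_div, div_mul_eq_mul_div, div_le_iff₀ (by positivity)]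
  push_cast
  have e1 : (n : ℝ) ^ 4 = (n : ℝ) ^ (3 / 2 : ℝ) * Real.sqrt n * n ^ 2 := by rw [hrp]; ring
  rw [e1]
  have e2 : 2 * 2 ^ kf S m * (n : ℝ) ^ 2 + 2 ≤ (4 * C0 + 2) * (Real.sqrt n * n ^ 2) := by
    have e3 : 2 * 2 ^ kf S m * (n : ℝ) ^ 2 ≤ 4 * C0 * (Real.sqrt n * n ^ 2) := by
      have := mul_le_mul_of_nonneg_right h4 (by positivity : (0 : ℝ) ≤ 2 * n ^ 2)
      linarith
    have e4 : (1 : ℝ) ≤ Real.sqrt n * n ^ 2 := by
      have : (1 : ℝ) * 1 ≤ Real.sqrt n * n ^ 2 := by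
        apply mul_le_mul hs0 (one_le_pow₀ hnr) (by norm_num) (by linarith)
      linarith
    linarith
  have := mul_le_mul_of_nonneg_right e2 hrp0.le
  linarith

theorem ae_sq (S : Set ℕ) (hS : Sparse S) (h b : ℕ) (hh : 1 ≤ h) (hb : 2 ≤ b) :
    ∀ᵐ ω ∂PP, Tendsto (fun n : ℕ => ‖WW h b (n ^ 2) (X S ω)‖ / (n : ℝ) ^ 2) atTop (𝓝 0) := by
  obtain ⟨C, hC, hmom⟩ := moment_sq S hS h b hh hb
  have hmeas : ∀ n : ℕ, Measurable fun ω =>
      ENNReal.ofReal (‖WW h b (n ^ 2) (X S ω)‖ ^ 2 / (n : ℝ) ^ 4) := by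
    intro n
    refine ENNReal.measurable_ofReal.comp ?_
    refine Measurable.div_const ?_ _
    exact (((continuous_WW h b (n ^ 2)).measurable.comp (measurable_X S)).norm).pow_const 2
  have hsum : ∫⁻ ω, ∑' n : ℕ, ENNReal.ofReal (‖WW h b (n ^ 2) (X S ω)‖ ^ 2 / (n : ℝ) ^ 4) ∂PP ≠ ⊤ := by
    rw [lintegral_tsum fun n => (hmeas n).aemeasurable]
    have hs : Summable fun n : ℕ => C * (1 / (n : ℝ) ^ (3 / 2 : ℝ)) :=
      (Real.summable_one_div_nat_rpow.mpr (by norm_num)).mul_left C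
    refine ne_top_of_le_ne_top hs.tsum_ofReal_ne_top (ENNReal.tsum_le_tsum fun n => ?_)
    rcases Nat.eq_zero_or_pos n with rfl | hn
    · simp [WW]
    · exact hmom n hn
  have hfin := ae_lt_top (Measurable.tsum hmeas) hsum
  filter_upwards [hfin] with ω hω
  have h1 := ENNReal.tendsto_atTop_zero_of_tsum_ne_top hω.ne
  have h2 : Tendsto (fun n : ℕ => ‖WW h b (n ^ 2) (X S ω)‖ ^ 2 / (n : ℝ) ^ 4) atTop (𝓝 0) := by
    have h3 := (ENNReal.tendsto_toReal ENNReal.zero_ne_top).comp h1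
    refine h3.congr fun n => ?_
    simp only [Function.comp_apply]
    rw [ENNReal.toReal_ofReal (by positivity)]
  have h3 : Tendsto (fun n : ℕ => Real.sqrt (‖WW h b (n ^ 2) (X S ω)‖ ^ 2 / (n : ℝ) ^ 4)) atTop (𝓝 0) := by
    have := (Real.continuous_sqrt.tendsto 0).comp h2
    rwa [Real.sqrt_zero] at this
  refine h3.congr fun n => ?_
  have : ‖WW h b (n ^ 2) (X S ω)‖ ^ 2 / (n : ℝ) ^ 4 = (‖WW h b (n ^ 2) (X S ω)‖ / (n : ℝ) ^ 2) ^ 2 := by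
    rw [div_pow]; ring
  rw [this, Real.sqrt_sq (by positivity)]

theorem interp (h b : ℕ) (x : ℝ)
    (hx : Tendsto (fun n : ℕ => ‖WW h b (n ^ 2) x‖ / (n : ℝ) ^ 2) atTop (𝓝 0)) :
    Tendsto (fun M : ℕ => ‖WW h b M x‖ / M) atTop (𝓝 0) := by
  have hsq : Tendsto (fun M : ℕ => Nat.sqrt M) atTop atTop := by
    rw [tendsto_atTop]
    intro c
    filter_upwards [eventually_ge_atTop (c * c)] with M hM
    exact Nat.le_sqrt.mpr hM
  have h1 := hx.comp hsq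
  have h2 : Tendsto (fun M : ℕ => 2 / (Nat.sqrt M : ℝ)) atTop (𝓝 0) :=
    (tendsto_const_div_atTop_nhds_zero_nat 2).comp hsq
  have h3 := h1.add h2
  rw [add_zero] at h3
  refine squeeze_zero' (Eventually.of_forall fun M => by positivity) ?_ h3
  filter_upwards [eventually_ge_atTop 1] with M hM
  simp only [Function.comp_apply]
  obtain ⟨n, hn⟩ : ∃ n, n = Nat.sqrt M := ⟨_, rfl⟩
  rw [← hn]
  have hn1 : 1 ≤ n := by rw [hn]; exact Nat.le_sqrt.mpr (by omega)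
  have ha : n ^ 2 ≤ M := by rw [hn]; exact Nat.sqrt_le' M
  have hb' : M ≤ n ^ 2 + 2 * n := by
    have := Nat.sqrt_le_add M
    rw [← hn] at this
    nlinarith
  have h4 : ‖WW h b M x‖ ≤ ‖WW h b (n ^ 2) x‖ + 2 * n := by
    have h5 : WW h b M x = WW h b (n ^ 2) x + ∑ j ∈ Finset.Ico (n ^ 2) M, ee (h * (x * (b : ℝ) ^ j)) := by
      unfold WW
      rw [Finset.sum_range_add_sum_Ico _ ha]
    rw [h5]
    refine (norm_add_le _ _).trans (add_le_add le_rfl ?_)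
    refine (norm_sum_le _ _).trans ?_
    simp only [ee_norm, Finset.sum_const, Nat.card_Ico, nsmul_eq_mul, mul_one]
    have : M - n ^ 2 ≤ 2 * n := by omega
    exact_mod_cast this
  have hn0 : (0 : ℝ) < n := by exact_mod_cast hn1
  have hM0 : (0 : ℝ) < M := by exact_mod_cast hM
  have ha' : (n : ℝ) ^ 2 ≤ M := by exact_mod_cast ha
  calc ‖WW h b M x‖ / M ≤ (‖WW h b (n ^ 2) x‖ + 2 * n) / (n : ℝ) ^ 2 := by
        apply div_le_div₀ (by positivity) h4 (by positivity) ha'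
    _ = ‖WW h b (n ^ 2) x‖ / (n : ℝ) ^ 2 + 2 / n := by
        rw [add_div]; congr 1; field_simp

/-- the absolutely normal numbers, in the form of the problem -/
def Nrm : Set ℝ := {x : ℝ | ∀ b : ℕ, 2 ≤ b → ∀ k : ℕ, ∀ w : Fin k → ℤ,
            (∀ j : Fin k, 0 ≤ w j ∧ w j < (b:ℤ)) →
            Tendsto (fun N : ℕ =>
              ((((Finset.range N).filter (fun i : ℕ =>
                ∀ j : Fin k, ⌊x * (b:ℝ) ^ (i + j.val + 1)⌋ % (b:ℤ) = w j)).card : ℝ) / (N:ℝ)))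
              atTop (𝓝 (1 / (b:ℝ) ^ k))}

theorem nrm_of_weyl (x : ℝ) (hx : ∀ h b : ℕ, 1 ≤ h → 2 ≤ b →
    Tendsto (fun M : ℕ => ‖WW h b M x‖ / M) atTop (𝓝 0)) : x ∈ Nrm := by
  intro b hb k w hw
  have h1 := block_freq b hb x (fun h hh => hx h b hh hb) k
    (fun j => ⟨(w j).toNat, by have := hw j; omega⟩)
  refine h1.congr fun N => ?_
  congr 3
  ext i
  simp only [Finset.mem_filter]
  refine and_congr_right fun _ => forall_congr' fun j => ?_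
  have h2 : ((w j).toNat : ℤ) = w j := Int.toNat_of_nonneg (hw j).1
  rw [h2, show i + 1 + (j : ℕ) = i + (j : ℕ) + 1 by ring]

theorem ae_nrm (S : Set ℕ) (hS : Sparse S) : ∀ᵐ ω ∂PP, X S ω ∈ Nrm := by
  have h1 : ∀ᵐ ω ∂PP, ∀ h b : ℕ, 1 ≤ h → 2 ≤ b →
      Tendsto (fun n : ℕ => ‖WW h b (n ^ 2) (X S ω)‖ / (n : ℝ) ^ 2) atTop (𝓝 0) := by
    rw [ae_all_iff]; intro h
    rw [ae_all_iff]; intro b
    by_cases hh : 1 ≤ h
    · by_cases hb : 2 ≤ b
      · filter_upwards [ae_sq S hS h b hh hb] with ω hω _ _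
        exact hω
      · exact Eventually.of_forall fun ω _ hb' => absurd hb' hb
    · exact Eventually.of_forall fun ω hh' _ => absurd hh' hh
  filter_upwards [h1] with ω hω
  exact nrm_of_weyl _ fun h b hh hb => interp h b _ (hω h b hh hb)

end Pool.Agent.Helper783_UN
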