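import Mathlib

/-!
# Random binary expansions with forced zero digits at the places of a set `S`
-/

set_option autoImplicit false

open MeasureTheory Filter Topology Set

namespace Pool.Agent.Helper783_UN

open Classical in
/-- The integer formed by the first `m` digits; digits at the places in `S` are zero. -/
noncomputable def AA (S : Set ℕ) (ω : ℕ → Bool) : ℕ → ℕ
  | 0 => 0
  | m + 1 => 2 * AA S ω m + (if m ∈ S then 0 else (ω m).toNat)

open Classical in
/-- the number of forced places below `m` -/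
noncomputable def kf (S : Set ℕ) (m : ℕ) : ℕ := ((Finset.range m).filter (fun i => i ∈ S)).card

open Classical in
/-- the free places below `m` -/
noncomputable def fr (S : Set ℕ) (m : ℕ) : Finset ℕ := (Finset.range m).filter (fun i => i ∉ S)

theorem AA_succ_mem {S : Set ℕ} {ω : ℕ → Bool} {m : ℕ} (h : m ∈ S) :
    AA S ω (m + 1) = 2 * AA S ω m := by
  rw [AA, if_pos h, add_zero]

theorem AA_succ_not {S : Set ℕ} {ω : ℕ → Bool} {m : ℕ} (h : m ∉ S) :
    AA S ω (m + 1) = 2 * AA S ω m + (ω m).toNat := by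
  rw [AA, if_neg h]

theorem toNat_le (b : Bool) : b.toNat ≤ 1 := by cases b <;> simp

theorem AA_succ_le (S : Set ℕ) (ω : ℕ → Bool) (m : ℕ) :
    2 * AA S ω m ≤ AA S ω (m + 1) ∧ AA S ω (m + 1) ≤ 2 * AA S ω m + 1 := by
  by_cases h : m ∈ S
  · rw [AA_succ_mem h]; omega
  · rw [AA_succ_not h]
    have := toNat_le (ω m)
    omega

theorem AA_lt (S : Set ℕ) (ω : ℕ → Bool) (m : ℕ) : AA S ω m < 2 ^ m := by
  induction m with
  | zero => simp [AA]
  | succ m ih =>
    have := (AA_succ_le S ω m).2
    rw [pow_succ]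
    omega

/-- equal integers have equal free digits -/
theorem AA_inj (S : Set ℕ) (ω ω' : ℕ → Bool) (m : ℕ) (h : AA S ω m = AA S ω' m) :
    ∀ i ∈ fr S m, ω i = ω' i := by
  induction m with
  | zero => intro i hi; simp [fr] at hi
  | succ m ih =>
    have key : AA S ω m = AA S ω' m ∧ (m ∉ S → ω m = ω' m) := by
      by_cases hm : m ∈ S
      · rw [AA_succ_mem hm, AA_succ_mem hm] at h
        exact ⟨by omega, fun h' => absurd hm h'⟩
      · rw [AA_succ_not hm, AA_succ_not hm] at h
        have h1 := toNat_le (ω m)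
        have h2 := toNat_le (ω' m)
        have h3 : (ω m).toNat = (ω' m).toNat := by omega
        refine ⟨by omega, fun _ => ?_⟩
        cases h4 : ω m <;> cases h5 : ω' m <;> simp_all
    intro i hi
    simp only [fr, Finset.mem_filter, Finset.mem_range] at hi
    rcases Nat.lt_succ_iff_lt_or_eq.mp hi.1 with h1 | h1
    · apply ih key.1
      simp only [fr, Finset.mem_filter, Finset.mem_range]
      exact ⟨h1, hi.2⟩
    · subst h1
      exact key.2 hi.2

theorem card_fr (S : Set ℕ) (m : ℕ) : (fr S m).card + kf S m = m := by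
  classical
  have := Finset.card_filter_add_card_filter_not (s := Finset.range m) (fun i => i ∈ S)
  rw [Finset.card_range] at this
  unfold fr kf
  omega

/-- the fair coin -/
noncomputable def coin : Measure Bool := (PMF.uniformOfFintype Bool).toMeasure

instance : IsProbabilityMeasure coin := by unfold coin; infer_instance

theorem coin_singleton (b : Bool) : coin {b} = 1 / 2 := by
  unfold coin
  rw [PMF.toMeasure_apply_singleton _ _ (measurableSet_singleton b)]
  simp

/-- independent fair coins -/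
noncomputable def PP : Measure (ℕ → Bool) := Measure.infinitePi (fun _ => coin)

instance : IsProbabilityMeasure PP := by unfold PP; infer_instance

theorem PP_cyl (I : Finset ℕ) (ω : ℕ → Bool) :
    PP {η | ∀ i ∈ I, η i = ω i} = (1 / 2) ^ I.card := by
  have h1 : {η : ℕ → Bool | ∀ i ∈ I, η i = ω i} = Set.pi (I : Set ℕ) (fun i => {ω i}) := by
    ext η; simp [Set.mem_pi]
  rw [h1]
  unfold PP
  rw [Measure.infinitePi_pi]
  · simp only [coin_singleton, Finset.prod_const]
  · intro i _; exact measurableSet_singleton _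

theorem PP_AA_le (S : Set ℕ) (m c : ℕ) : PP {ω | AA S ω m = c} ≤ (1 / 2) ^ (fr S m).card := by
  by_cases h : ∃ ω, AA S ω m = c
  · obtain ⟨ω, hω⟩ := h
    rw [← PP_cyl (fr S m) ω]
    apply measure_mono
    intro η hη i hi
    exact AA_inj S η ω m (by rw [hω]; exact hη) i hi
  · push Not at h
    have : {ω | AA S ω m = c} = ∅ := by
      ext ω; simp [h ω]
    rw [this]; simp

theorem measurable_AA (S : Set ℕ) (m : ℕ) : Measurable fun ω => AA S ω m := by
  induction m with
  | zero => simp only [AA]; exact measurable_const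
  | succ m ih =>
    by_cases h : m ∈ S
    · simp only [AA_succ_mem h]
      exact ih.const_mul 2
    · simp only [AA_succ_not h]
      refine (ih.const_mul 2).add ?_
      exact (measurable_of_countable Bool.toNat).comp (measurable_pi_apply m)

open Classical in
/-- the digits divided by powers of two -/
noncomputable def tm (S : Set ℕ) (ω : ℕ → Bool) (i : ℕ) : ℝ :=
  (if i ∈ S then 0 else ((ω i).toNat : ℝ)) / 2 ^ (i + 1)

theorem tm_nonneg (S : Set ℕ) (ω : ℕ → Bool) (i : ℕ) : 0 ≤ tm S ω i := by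
  unfold tm
  apply div_nonneg _ (by positivity)
  split_ifs
  · exact le_rfl
  · positivity

theorem tm_le (S : Set ℕ) (ω : ℕ → Bool) (i : ℕ) : tm S ω i ≤ (1 / 2 : ℝ) ^ (i + 1) := by
  unfold tm
  rw [div_pow, one_pow]
  apply div_le_div_of_nonneg_right _ (by positivity)
  split_ifs
  · exact zero_le_one
  · exact_mod_cast toNat_le (ω i)

theorem summable_half : Summable fun i : ℕ => (1 / 2 : ℝ) ^ (i + 1) := by
  have := (summable_geometric_of_lt_one (by norm_num : (0:ℝ) ≤ 1 / 2) (by norm_num)).mul_left (1/2 : ℝ)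
  refine this.congr fun i => ?_
  rw [pow_succ]; ring

theorem tsum_half : ∑' i : ℕ, (1 / 2 : ℝ) ^ (i + 1) = 1 := by
  have : (fun i : ℕ => (1 / 2 : ℝ) ^ (i + 1)) = fun i : ℕ => (1 / 2 : ℝ) * (1 / 2) ^ i := by
    ext i; rw [pow_succ]; ring
  rw [this, tsum_mul_left, tsum_geometric_of_lt_one (by norm_num) (by norm_num)]
  norm_num

theorem summable_tm (S : Set ℕ) (ω : ℕ → Bool) : Summable (tm S ω) :=
  Summable.of_nonneg_of_le (tm_nonneg S ω) (tm_le S ω) summable_half

/-- the random number -/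
noncomputable def X (S : Set ℕ) (ω : ℕ → Bool) : ℝ := ∑' i, tm S ω i

theorem sum_tm (S : Set ℕ) (ω : ℕ → Bool) (m : ℕ) :
    ∑ i ∈ Finset.range m, tm S ω i = (AA S ω m : ℝ) / 2 ^ m := by
  induction m with
  | zero => simp [AA]
  | succ m ih =>
    rw [Finset.sum_range_succ, ih]
    by_cases h : m ∈ S
    · rw [AA_succ_mem h, tm, if_pos h]
      push_cast
      rw [pow_succ]
      field_simp
      ring
    · rw [AA_succ_not h, tm, if_neg h]
      push_cast
      rw [pow_succ]
      field_simp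

theorem X_bounds (S : Set ℕ) (ω : ℕ → Bool) (m : ℕ) :
    (AA S ω m : ℝ) / 2 ^ m ≤ X S ω ∧ X S ω ≤ ((AA S ω m : ℝ) + 1) / 2 ^ m := by
  have h1 := (summable_tm S ω).sum_add_tsum_nat_add m
  rw [sum_tm] at h1
  have h2 : 0 ≤ ∑' i, tm S ω (i + m) := tsum_nonneg fun i => tm_nonneg S ω _
  have h3 : ∑' i, tm S ω (i + m) ≤ 1 / 2 ^ m := by
    have h4 : ∀ i, tm S ω (i + m) ≤ (1 / 2 : ℝ) ^ (i + 1) * (1 / 2 ^ m) := by
      intro i
      refine (tm_le S ω _).trans (le_of_eq ?_)
      rw [show i + m + 1 = (i + 1) + m by ring, pow_add, div_pow 1 2 m, one_pow]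
    calc ∑' i, tm S ω (i + m) ≤ ∑' i, (1 / 2 : ℝ) ^ (i + 1) * (1 / 2 ^ m) :=
          Summable.tsum_le_tsum h4 ((summable_nat_add_iff m).mpr (summable_tm S ω))
            (summable_half.mul_right _)
      _ = 1 / 2 ^ m := by rw [tsum_mul_right, tsum_half, one_mul]
  unfold X
  constructor
  · linarith
  · rw [add_div]; linarith

theorem measurable_X (S : Set ℕ) : Measurable (X S) := by
  have h : Tendsto (fun (m : ℕ) (ω : ℕ → Bool) => (AA S ω m : ℝ) / 2 ^ m) atTop (𝓝 (X S)) := by
    rw [tendsto_pi_nhds]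
    intro ω
    have h1 := (summable_tm S ω).hasSum.tendsto_sum_nat
    simp only [sum_tm] at h1
    exact h1
  refine measurable_of_tendsto_metrizable (fun m => ?_) h
  exact ((measurable_from_nat (f := fun n : ℕ => (n : ℝ))).comp (measurable_AA S m)).div_const _

/-- the small ball bound -/
theorem small_ball (S : Set ℕ) (m : ℕ) (U : Set ℝ)
    (hU : ∀ x ∈ U, ∀ y ∈ U, |x - y| < 1 / 2 ^ m) :
    PP (X S ⁻¹' U) ≤ 2 * (1 / 2) ^ (fr S m).card := by
  by_cases hne : ∃ ω, X S ω ∈ U
  · -- the minimal value of the integer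
    have hmin : ∃ c, ∃ ω, X S ω ∈ U ∧ AA S ω m = c := by
      obtain ⟨ω, hω⟩ := hne
      exact ⟨_, ω, hω, rfl⟩
    classical
    obtain ⟨ω₀, hω₀, hc⟩ := Nat.find_spec hmin
    have hsub : X S ⁻¹' U ⊆ {ω | AA S ω m = Nat.find hmin} ∪ {ω | AA S ω m = Nat.find hmin + 1} := by
      intro ω hω
      have h1 : Nat.find hmin ≤ AA S ω m := Nat.find_min' hmin ⟨ω, hω, rfl⟩
      have h2 := hU _ hω _ hω₀
      have h3 := X_bounds S ω m
      have h4 := X_bounds S ω₀ m
      rw [abs_lt] at h2
      have h5 : (AA S ω m : ℝ) < (AA S ω₀ m : ℝ) + 2 := by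
        have hp : (0 : ℝ) < 2 ^ m := by positivity
        have h6 : (AA S ω m : ℝ) / 2 ^ m < ((AA S ω₀ m : ℝ) + 2) / 2 ^ m := by
          calc (AA S ω m : ℝ) / 2 ^ m ≤ X S ω := h3.1
            _ < X S ω₀ + 1 / 2 ^ m := by linarith [h2.2]
            _ ≤ ((AA S ω₀ m : ℝ) + 1) / 2 ^ m + 1 / 2 ^ m := by linarith [h4.2]
            _ = ((AA S ω₀ m : ℝ) + 2) / 2 ^ m := by rw [← add_div]; ring
        exact (div_lt_div_iff_of_pos_right hp).mp h6
      have h6 : AA S ω m < AA S ω₀ m + 2 := by exact_mod_cast h5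
      rw [hc] at h6
      simp only [mem_union, mem_ofPred_eq]
      omega
    calc PP (X S ⁻¹' U) ≤ _ := measure_mono hsub
      _ ≤ _ := measure_union_le _ _
      _ ≤ (1 / 2) ^ (fr S m).card + (1 / 2) ^ (fr S m).card :=
          add_le_add (PP_AA_le S m _) (PP_AA_le S m _)
      _ = 2 * (1 / 2) ^ (fr S m).card := by rw [two_mul]
  · push Not at hne
    have : X S ⁻¹' U = ∅ := by
      ext ω; simp [hne ω]
    rw [this]; simp

end Pool.Agent.Helper783_UN
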