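import Pool.Agent.Helper783_UN.Ae
import Pool.Agent.Y249.SU.Raj
import Pool.Agent.Y249.SU.Bump

/-!
# Closed sets of uniqueness with many absolutely normal numbers, for every gauge function
-/

set_option autoImplicit false

open MeasureTheory Filter Topology Set
open scoped ENNReal

namespace Pool.Agent.Helper783_UN

/-- the set of numbers with zero digits at the places of `S` -/
def KK (S : Set ℕ) : Set ℝ := {x | x ∈ Icc (0 : ℝ) 1 ∧ ∀ i ∈ S, Int.fract (2 ^ i * x) ≤ 1 / 2}

theorem isClosed_fract : IsClosed {y : ℝ | Int.fract y ≤ 1 / 2} := by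
  rw [← isOpen_compl_iff]
  have : {y : ℝ | Int.fract y ≤ 1 / 2}ᶜ = ⋃ c : ℤ, Ioo ((c : ℝ) + 1 / 2) (c + 1) := by
    ext y
    simp only [mem_compl_iff, mem_ofPred_eq, not_le, mem_iUnion, mem_Ioo]
    constructor
    · intro h
      refine ⟨⌊y⌋, ?_, Int.lt_floor_add_one y⟩
      have := Int.floor_add_fract y
      linarith
    · rintro ⟨c, h1, h2⟩
      have : ⌊y⌋ = c := by
        rw [Int.floor_eq_iff]
        constructor <;> linarith
      have h3 := Int.floor_add_fract y
      rw [this] at h3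
      linarith
  rw [this]
  exact isOpen_iUnion fun c => isOpen_Ioo

theorem isClosed_KK (S : Set ℕ) : IsClosed (KK S) := by
  have : KK S = Icc (0 : ℝ) 1 ∩ ⋂ i ∈ S, (fun x : ℝ => 2 ^ i * x) ⁻¹' {y : ℝ | Int.fract y ≤ 1 / 2} := by
    ext x
    simp [KK]
  rw [this]
  refine isClosed_Icc.inter (isClosed_biInter fun i _ => ?_)
  exact isClosed_fract.preimage (by fun_prop)

theorem X_mem_KK (S : Set ℕ) (ω : ℕ → Bool) : X S ω ∈ KK S := by
  refine ⟨?_, fun i hi => ?_⟩
  · have := X_bounds S ω 0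
    simp only [AA, Nat.cast_zero, pow_zero, zero_add, div_one] at this
    exact this
  · have h1 := X_bounds S ω (i + 1)
    rw [AA_succ_mem hi] at h1
    push_cast at h1
    have hp : (0 : ℝ) < 2 ^ i := by positivity
    rw [pow_succ] at h1
    obtain ⟨h2, h3⟩ := h1
    rw [div_le_iff₀ (by positivity)] at h2
    rw [le_div_iff₀ (by positivity)] at h3
    have h4 : (AA S ω i : ℝ) ≤ 2 ^ i * X S ω := by linarith
    have h5 : 2 ^ i * X S ω ≤ (AA S ω i : ℝ) + 1 / 2 := by linarith
    have h6 : ⌊2 ^ i * X S ω⌋ = (AA S ω i : ℤ) := by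
      rw [Int.floor_eq_iff]
      push_cast
      constructor <;> linarith
    have h7 := Int.floor_add_fract (2 ^ i * X S ω)
    rw [h6] at h7
    push_cast at h7
    linarith

open Pool.Agent.Y249.SU in
theorem lam_int (γ : ℤ → ℂ) (x : ℝ) (m : ℤ) : lam γ (x + m) = lam γ x := by
  unfold lam
  congr 1
  ext j
  have : E j (m : ℝ) = 1 := by
    rw [E]
    have : (2 * (Real.pi : ℂ) * Complex.I * (j : ℂ) * ((m : ℝ) : ℂ)) =
        ((j * m : ℤ) : ℂ) * (2 * Real.pi * Complex.I) := by
      push_cast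
      ring
    rw [this, Complex.exp_int_mul_two_pi_mul_I]
  rw [E_add, this, mul_one]

open Pool.Agent.Y249.SU in
theorem unique_KK (s : ℕ → ℕ) (hs : StrictMono s) {c : ℤ → ℂ}
    (hc : ∀ x : ℝ, (∀ m : ℤ, x + (m : ℝ) ∉ KK (range s)) →
      Tendsto (fun N : ℕ => ∑ n ∈ Finset.Icc (-(N:ℤ)) (N:ℤ),
              c n * Complex.exp (2 * (Real.pi:ℂ) * Complex.I * (n:ℂ) * (x:ℂ))) atTop (𝓝 0))
    (n : ℤ) : c n = 0 := by
  obtain ⟨γ, hγ, hγ0, hγz⟩ := exists_gamma
  have hM : Tendsto (fun k : ℕ => ((2 ^ (s k) : ℕ) : ℤ)) atTop atTop := by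
    have h1 : Tendsto (fun k : ℕ => 2 ^ (s k)) atTop atTop :=
      (tendsto_pow_atTop_atTop_of_one_lt (r := (2 : ℕ)) (by norm_num)).comp hs.tendsto_atTop
    exact tendsto_natCast_atTop_atTop.comp h1
  have hK : ∀ x ∈ KK (range s), ∀ k, lam γ ((((2 ^ (s k) : ℕ) : ℤ) : ℝ) * x) = 0 := by
    intro x hx k
    have h1 := hx.2 (s k) ⟨k, rfl⟩
    have h2 : ((((2 ^ (s k) : ℕ) : ℤ) : ℝ) * x) = Int.fract (2 ^ (s k) * x) + (⌊2 ^ (s k) * x⌋ : ℤ) := by
      push_cast
      rw [Int.fract_add_floor]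
    rw [h2, lam_int]
    exact hγz _ ⟨Int.fract_nonneg _, h1⟩
  have hab : (1 / 2 : ℝ) / 2 ^ (s 0) < 1 / 2 ^ (s 0) := by
    apply div_lt_div_of_pos_right (by norm_num) (by positivity)
  have hint : ∀ x ∈ Ioo ((1 / 2 : ℝ) / 2 ^ (s 0)) (1 / 2 ^ (s 0)), ∀ m : ℤ, x + (m : ℝ) ∉ KK (range s) := by
    intro x hx m hK'
    have h1 := hK'.2 (s 0) ⟨0, rfl⟩
    have hp : (0 : ℝ) < 2 ^ (s 0) := by positivity
    have h2 : (2 : ℝ) ^ (s 0) * (x + m) = 2 ^ (s 0) * x + ((2 ^ (s 0) * m : ℤ) : ℝ) := by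
      push_cast; ring
    rw [h2, Int.fract_add_intCast] at h1
    have h3 := hx.1
    have h4 := hx.2
    rw [div_lt_iff₀ hp] at h3
    rw [lt_div_iff₀ hp] at h4
    have h5 : Int.fract (2 ^ (s 0) * x) = 2 ^ (s 0) * x := by
      rw [Int.fract_eq_self]
      constructor <;> linarith
    rw [h5] at h1
    linarith
  exact uniqueness hM hγ hγ0 hK hab hint (fun x hx => hc x hx) n

/-- the distribution of the random number -/
noncomputable def mu (S : Set ℕ) : Measure ℝ := Measure.map (X S) PP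

instance (S : Set ℕ) : IsProbabilityMeasure (mu S) :=
  Measure.isProbabilityMeasure_map (measurable_X S).aemeasurable

theorem half_pow (S : Set ℕ) (m : ℕ) :
    (2 : ENNReal) * (1 / 2) ^ (fr S m).card = ENNReal.ofReal (2 * 2 ^ (kf S m) / 2 ^ m) := by
  have h2 : ((1 : ENNReal) / 2) ^ (fr S m).card = ENNReal.ofReal ((1 / 2) ^ (fr S m).card) := by
    rw [ENNReal.ofReal_pow (by norm_num)]
    congr 1
    rw [ENNReal.ofReal_div_of_pos (by norm_num)]
    simp
  have h0 : (2 : ENNReal) = ENNReal.ofReal 2 := by simp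
  rw [h2]
  nth_rewrite 1 [h0]
  rw [← ENNReal.ofReal_mul (by norm_num)]
  congr 1
  have h3 := card_fr S m
  have h4 : ((1 : ℝ) / 2) ^ (fr S m).card * 2 ^ m = 2 ^ (kf S m) := by
    have h5 : (2 : ℝ) ^ m = 2 ^ (fr S m).card * 2 ^ (kf S m) := by
      rw [← pow_add, h3]
    rw [h5, ← mul_assoc, ← mul_pow]
    norm_num
  rw [← h4]
  field_simp

/-- the Frostman bound, at all scales -/
theorem mu_le (S : Set ℕ) (U : Set ℝ) (m : ℕ) (hU : Metric.ediam U < ENNReal.ofReal (1 / 2 ^ m)) :
    mu S U ≤ ENNReal.ofReal (2 * 2 ^ (kf S m) / 2 ^ m) := by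
  have h1 : mu S U ≤ mu S (closure U) := measure_mono subset_closure
  refine h1.trans ?_
  unfold mu
  rw [Measure.map_apply (measurable_X S) isClosed_closure.measurableSet, ← half_pow]
  apply small_ball
  intro x hx y hy
  have h2 : Metric.ediam (closure U) < ENNReal.ofReal (1 / 2 ^ m) := by
    rwa [Metric.ediam_closure]
  have h3 := lt_of_le_of_lt (Metric.edist_le_ediam_of_mem hx hy) h2
  rw [edist_dist, Real.dist_eq] at h3
  exact (ENNReal.ofReal_lt_ofReal_iff (by positivity)).mp h3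

theorem kf_lt (s : ℕ → ℕ) (hs : StrictMono s) (m j : ℕ) (h : j + 1 ≤ kf (range s) m) : s j < m := by
  classical
  by_contra hcon
  push Not at hcon
  have hsub : (Finset.range m).filter (fun i => i ∈ range s) ⊆ (Finset.range j).image s := by
    intro i hi
    simp only [Finset.mem_filter, Finset.mem_range, Set.mem_range] at hi
    obtain ⟨hi1, l, rfl⟩ := hi
    simp only [Finset.mem_image, Finset.mem_range]
    refine ⟨l, ?_, rfl⟩
    exact hs.lt_iff_lt.mp (lt_of_lt_of_le hi1 hcon)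
  have h1 : kf (range s) m ≤ j := by
    unfold kf
    calc _ ≤ ((Finset.range j).image s).card := by
          convert Finset.card_le_card hsub
      _ ≤ (Finset.range j).card := Finset.card_image_le
      _ = j := Finset.card_range j
  omega

theorem main (φ : ℝ → ℝ) (hφpos : ∀ r : ℝ, 0 < r → 0 < φ r)
    (hlim : Tendsto (fun r : ℝ => r / φ r) (𝓝[>] (0:ℝ)) (𝓝 0)) :
    ∃ K : Set ℝ, IsClosed K ∧ K ⊆ Set.Icc (0:ℝ) 1 ∧
        (∀ c : ℤ → ℂ,
          (∀ x : ℝ, (∀ m : ℤ, x + (m:ℝ) ∉ K) →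
            Tendsto (fun N : ℕ => ∑ n ∈ Finset.Icc (-(N:ℤ)) (N:ℤ),
              c n * Complex.exp (2 * (Real.pi:ℂ) * Complex.I * (n:ℂ) * (x:ℂ))) atTop (𝓝 0)) →
          ∀ n : ℤ, c n = 0) ∧
        0 < MeasureTheory.Measure.mkMetric (fun r : ℝ≥0∞ => ENNReal.ofReal (φ r.toReal)) (K ∩ Nrm) := by
  -- thresholds
  have hR : ∀ k : ℕ, ∃ R : ℝ, 0 < R ∧ ∀ r : ℝ, 0 < r → r < R → 2 ^ k * r ≤ φ r := by
    intro k
    have h1 := (hlim.eventually (gt_mem_nhds (show (0 : ℝ) < 1 / 2 ^ k by positivity)))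
    rw [eventually_nhdsWithin_iff] at h1
    obtain ⟨R, hR, h2⟩ := Metric.eventually_nhds_iff.mp h1
    refine ⟨R, hR, fun r hr0 hrR => ?_⟩
    have h3 := h2 (by rw [Real.dist_eq, sub_zero, abs_of_pos hr0]; exact hrR) hr0
    rw [div_lt_div_iff₀ (hφpos r hr0) (by positivity)] at h3
    linarith
  choose R hR0 hR1 using hR
  have hT : ∀ k : ℕ, ∃ T : ℕ, 1 / 2 ^ T < R k := by
    intro k
    obtain ⟨T, hT⟩ := exists_pow_lt_of_lt_one (hR0 k) (show (1 / 2 : ℝ) < 1 by norm_num)
    exact ⟨T, by rwa [div_pow, one_pow] at hT⟩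
  choose T hT using hT
  let N : ℕ → ℕ := fun k => 16 ^ k + T (k + 1)
  let s : ℕ → ℕ := fun k => ∑ j ∈ Finset.range (k + 1), N j
  have hNpos : ∀ k, 0 < N k := fun k => by positivity
  have hs : StrictMono s := by
    apply strictMono_nat_of_lt_succ
    intro k
    change ∑ j ∈ Finset.range (k + 1), N j < ∑ j ∈ Finset.range (k + 1 + 1), N j
    rw [Finset.sum_range_succ _ (k + 1)]
    have := hNpos (k + 1)
    omega
  have hsN : ∀ k, N k ≤ s k := by
    intro k
    exact Finset.single_le_sum (f := N) (fun _ _ => Nat.zero_le _) (Finset.self_mem_range_succ k)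
  have hsparse : Sparse (range s) := by
    intro m hm
    rcases Nat.eq_zero_or_pos (kf (range s) m) with h0 | h0
    · rw [h0]; omega
    · obtain ⟨j, hj⟩ : ∃ j, kf (range s) m = j + 1 := ⟨kf (range s) m - 1, by omega⟩
      have h1 := kf_lt s hs m j (by omega)
      have h2 := hsN j
      have h3 : 16 ^ j ≤ N j := Nat.le_add_right _ _
      rw [hj]
      have h4 : ((2 : ℕ) ^ (j + 1)) ^ 4 = 16 * 16 ^ j := by
        rw [← pow_mul, mul_comm, pow_mul]; norm_num [pow_succ, mul_comm]
      rw [h4]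
      omega
  obtain ⟨ρ, hρ⟩ : ∃ ρ, ρ = min (R 0) 1 := ⟨_, rfl⟩
  have hρ0 : 0 < ρ := by rw [hρ]; exact lt_min (hR0 0) one_pos
  have hfro : ∀ (r : ℝ) (m : ℕ), 0 < r → r < ρ → 1 / 2 ^ (m + 1) ≤ r → r < 1 / 2 ^ m →
      2 * 2 ^ (kf (range s) m) / 2 ^ m ≤ 4 * φ r := by
    intro r m hr0 hrρ hr1 hr2
    have h1 : 2 ^ (kf (range s) m) * r ≤ φ r := by
      rcases Nat.eq_zero_or_pos (kf (range s) m) with h0 | h0
      · rw [h0]
        apply hR1 0 r hr0
        exact lt_of_lt_of_le hrρ (by rw [hρ]; exact min_le_left _ _)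
      · obtain ⟨j, hj⟩ : ∃ j, kf (range s) m = j + 1 := ⟨kf (range s) m - 1, by omega⟩
        rw [hj]
        apply hR1 (j + 1) r hr0
        have h2 := kf_lt s hs m j (by omega)
        have h3 := hsN j
        have h4 : T (j + 1) ≤ N j := Nat.le_add_left _ _
        have h5 : T (j + 1) ≤ m := by omega
        calc r < 1 / 2 ^ m := hr2
          _ ≤ 1 / 2 ^ (T (j + 1)) := by
              apply one_div_le_one_div_of_le (by positivity)
              exact pow_le_pow_right₀ (by norm_num) h5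
          _ < R (j + 1) := hT (j + 1)
    have h2 : (1 : ℝ) / 2 ^ m ≤ 2 * r := by
      rw [pow_succ] at hr1
      have : (1 : ℝ) / (2 ^ m * 2) = 1 / 2 ^ m / 2 := by rw [div_div]
      linarith
    have h3 : (0 : ℝ) ≤ 2 * 2 ^ (kf (range s) m) := by positivity
    calc 2 * 2 ^ (kf (range s) m) / 2 ^ m = 2 * 2 ^ (kf (range s) m) * (1 / 2 ^ m) := by ring
      _ ≤ 2 * 2 ^ (kf (range s) m) * (2 * r) := mul_le_mul_of_nonneg_left h2 h3
      _ = 4 * (2 ^ (kf (range s) m) * r) := by ring
      _ ≤ 4 * φ r := by linarith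
  refine ⟨KK (range s), isClosed_KK _, fun x hx => hx.1, fun c hc n => unique_KK s hs hc n, ?_⟩
  -- the mass distribution principle
  have hle : (4 : ENNReal)⁻¹ • mu (range s) ≤
      Measure.mkMetric (fun r : ℝ≥0∞ => ENNReal.ofReal (φ r.toReal)) := by
    apply Measure.le_mkMetric _ _ (ENNReal.ofReal (ρ / 2)) (by simpa using by positivity)
    intro U hU
    have hfin : Metric.ediam U ≠ ⊤ := ne_top_of_le_ne_top ENNReal.ofReal_ne_top hU
    rw [Measure.smul_apply, smul_eq_mul]
    obtain ⟨r, hr⟩ : ∃ r, r = (Metric.ediam U).toReal := ⟨_, rfl⟩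
    have hdr : Metric.ediam U = ENNReal.ofReal r := by rw [hr, ENNReal.ofReal_toReal hfin]
    rcases eq_or_lt_of_le (show 0 ≤ r by rw [hr]; exact ENNReal.toReal_nonneg) with h0 | h0
    · -- diameter zero
      have hz : mu (range s) U = 0 := by
        have h1 : ∀ m : ℕ, 1 ≤ m → mu (range s) U ≤ ENNReal.ofReal (4 * ((m : ℝ) / 2 ^ m)) := by
          intro m hm
          refine (mu_le (range s) U m ?_).trans ?_
          · rw [hdr, ← h0]
            exact (ENNReal.ofReal_lt_ofReal_iff (by positivity)).mpr (by positivity)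
          · apply ENNReal.ofReal_le_ofReal
            have h2 := hsparse m hm
            have h3 : 2 ^ (kf (range s) m) ≤ 2 * m := by
              by_contra hcon
              push Not at hcon
              have h4 : (2 * m) ^ 4 < (2 ^ (kf (range s) m)) ^ 4 := Nat.pow_lt_pow_left hcon (by norm_num)
              have h5 : 16 * m ≤ (2 * m) ^ 4 := by
                have : m ≤ m ^ 4 := Nat.le_self_pow (by norm_num) m
                calc 16 * m ≤ 16 * m ^ 4 := by omega
                  _ = (2 * m) ^ 4 := by ring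
              omega
            have h4 : (2 : ℝ) ^ (kf (range s) m) ≤ 2 * m := by exact_mod_cast h3
            rw [← mul_div_assoc]
            apply div_le_div_of_nonneg_right _ (by positivity)
            linarith
        have h2 : Tendsto (fun m : ℕ => ENNReal.ofReal (4 * ((m : ℝ) / 2 ^ m))) atTop (𝓝 0) := by
          have h3 : Tendsto (fun m : ℕ => (m : ℝ) / 2 ^ m) atTop (𝓝 0) := by
            have := tendsto_self_mul_const_pow_of_lt_one (r := (1 / 2 : ℝ)) (by norm_num) (by norm_num)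
            refine this.congr fun m => ?_
            rw [div_pow, one_pow]; ring
          have h4 := h3.const_mul 4
          rw [mul_zero] at h4
          have h5 := (ENNReal.continuous_ofReal.tendsto 0).comp h4
          rwa [ENNReal.ofReal_zero] at h5
        refine le_antisymm (ge_of_tendsto h2 ?_) bot_le
        filter_upwards [eventually_ge_atTop 1] with m hm
        exact h1 m hm
      rw [hz, mul_zero]
      exact bot_le
    · have hrρ : r < ρ := by
        have h1 : ENNReal.ofReal r ≤ ENNReal.ofReal (ρ / 2) := by rw [← hdr]; exact hU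
        have h2 := (ENNReal.ofReal_le_ofReal_iff (by positivity)).mp h1
        linarith
      have hr1 : r < 1 := lt_of_lt_of_le hrρ (by rw [hρ]; exact min_le_right _ _)
      obtain ⟨m, hm1, hm2⟩ : ∃ m : ℕ, 1 / 2 ^ (m + 1) ≤ r ∧ r < 1 / 2 ^ m := by
        have hex : ∃ n : ℕ, (1 : ℝ) / 2 ^ n ≤ r := by
          obtain ⟨n, hn⟩ := exists_pow_lt_of_lt_one h0 (show (1 / 2 : ℝ) < 1 by norm_num)
          exact ⟨n, by rw [div_pow, one_pow] at hn; exact hn.le⟩
        classical
        have hn0 : Nat.find hex ≠ 0 := by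
          intro hz
          have := Nat.find_spec hex
          rw [hz] at this
          norm_num at this
          linarith
        obtain ⟨m, hm⟩ := Nat.exists_eq_succ_of_ne_zero hn0
        refine ⟨m, ?_, ?_⟩
        · have := Nat.find_spec hex
          rw [hm] at this
          exact this
        · have := Nat.find_min hex (show m < Nat.find hex by omega)
          push Not at this
          exact this
      have h1 := mu_le (range s) U m (by
        rw [hdr]; exact (ENNReal.ofReal_lt_ofReal_iff (by positivity)).mpr hm2)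
      have h2 := hfro r m h0 hrρ hm1 hm2
      have h3 : mu (range s) U ≤ 4 * ENNReal.ofReal (φ r) := by
        refine h1.trans ((ENNReal.ofReal_le_ofReal h2).trans (le_of_eq ?_))
        rw [ENNReal.ofReal_mul (by norm_num)]
        simp
      rw [← hr]
      calc (4 : ENNReal)⁻¹ * mu (range s) U ≤ 4⁻¹ * (4 * ENNReal.ofReal (φ r)) := mul_le_mul_right h3 _
        _ = ENNReal.ofReal (φ r) := by
            rw [← mul_assoc, ENNReal.inv_mul_cancel (by norm_num) (by norm_num), one_mul]
  have hpos : mu (range s) (KK (range s) ∩ Nrm) ≠ 0 := by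
    intro hz
    -- a measurable null set containing the set
    obtain ⟨Z, hZ1, hZ2, hZ3⟩ := exists_measurable_superset_of_null hz
    unfold mu at hZ3
    rw [Measure.map_apply (measurable_X _) hZ2] at hZ3
    have h1 : ∀ᵐ ω ∂PP, X (range s) ω ∉ Z := by
      rw [ae_iff]
      simp only [not_not]
      exact hZ3
    have h2 : ∀ᵐ ω ∂PP, False := by
      filter_upwards [h1, ae_nrm (range s) hsparse] with ω hω1 hω2
      exact hω1 (hZ1 ⟨X_mem_KK _ ω, hω2⟩)
    rw [eventually_false_iff_eq_bot, ae_eq_bot] at h2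
    exact IsProbabilityMeasure.ne_zero PP h2
  have hfinal := hle (KK (range s) ∩ Nrm)
  rw [Measure.smul_apply, smul_eq_mul] at hfinal
  refine lt_of_lt_of_le ?_ hfinal
  apply ENNReal.mul_pos (by simp) hpos

end Pool.Agent.Helper783_UN
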