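import Pool.Agent.Helper783_UN.Dig
import Pool.Agent.H493R3.Digits

/-!
# Weyl sums along the random numbers
-/

set_option autoImplicit false

open MeasureTheory Filter Topology Set

namespace Pool.Agent.Helper783_UN

open Pool.Agent.H493R3

/-- the Weyl sum -/
noncomputable def WW (h b M : ℕ) (x : ℝ) : ℂ := ∑ j ∈ Finset.range M, ee (h * (x * (b : ℝ) ^ j))

theorem ee_sub_le (x y : ℝ) : ‖ee x - ee y‖ ≤ 2 * Real.pi * |x - y| := by
  have h1 : ee x - ee y = ee y * (ee (x - y) - 1) := by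
    rw [mul_sub, ← ee_add, mul_one]
    congr 2
    ring
  rw [h1, norm_mul, ee_norm, one_mul]
  unfold ee
  have h2 : (2 * (Real.pi : ℂ) * ((x - y : ℝ) : ℂ) * Complex.I) =
      Complex.I * ((2 * Real.pi * (x - y) : ℝ) : ℂ) := by push_cast; ring
  rw [h2]
  refine (Real.norm_exp_I_mul_ofReal_sub_one_le).trans ?_
  rw [Real.norm_eq_abs, abs_mul, abs_of_pos Real.two_pi_pos]

theorem ee_pow (x : ℝ) (n : ℕ) : ee x ^ n = ee (n * x) := by
  unfold ee
  rw [← Complex.exp_nat_mul]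
  congr 1
  push_cast
  ring

theorem ee_eq_one {x : ℝ} (h : ee x = 1) : ∃ n : ℤ, x = n := by
  unfold ee at h
  rw [Complex.exp_eq_one_iff] at h
  obtain ⟨n, hn⟩ := h
  refine ⟨n, ?_⟩
  have h1 : (2 * (Real.pi : ℂ) * Complex.I) ≠ 0 := Complex.two_pi_I_ne_zero
  have h2 : (2 * (Real.pi : ℂ) * Complex.I) * (x : ℂ) = (2 * (Real.pi : ℂ) * Complex.I) * (n : ℂ) := by
    rw [mul_comm _ (n : ℂ), ← hn]; ring
  have h3 := mul_left_cancel₀ h1 h2
  exact_mod_cast h3

theorem geom_zero (q : ℕ) (v : ℤ) (hv : v ≠ 0) (hq : |v| < q) :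
    ∑ c ∈ Finset.range q, ee (v * ((c : ℝ) / q)) = 0 := by
  have hq0 : (0 : ℝ) < q := by
    have : (0 : ℤ) < q := lt_of_le_of_lt (abs_nonneg v) hq
    exact_mod_cast this
  have h1 : ∀ c : ℕ, ee (v * ((c : ℝ) / q)) = ee ((v : ℝ) / q) ^ c := by
    intro c
    rw [ee_pow]
    congr 1
    ring
  simp only [h1]
  have h2 : ee ((v : ℝ) / q) ≠ 1 := by
    intro h
    obtain ⟨n, hn⟩ := ee_eq_one h
    have h3 : (v : ℝ) = n * q := by
      rw [div_eq_iff hq0.ne'] at hn; exact hn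
    have h4 : v = n * q := by exact_mod_cast h3
    have h5 : n ≠ 0 := by
      rintro rfl
      apply hv; rw [h4]; ring
    rw [h4, abs_mul] at hq
    have h6 : 1 ≤ |n| := Int.one_le_abs h5
    have h7 : |(q : ℤ)| = q := abs_of_nonneg (by positivity)
    rw [h7] at hq
    have h8 : (0 : ℤ) ≤ q := by positivity
    nlinarith
  rw [geom_sum_eq h2, ee_pow]
  have h3 : (q : ℝ) * ((v : ℝ) / q) = v := by field_simp
  rw [h3, ee_int, sub_self, zero_div]

theorem orth (h b M q : ℕ) (hh : 1 ≤ h) (hb : 2 ≤ b) (hq : h * b ^ M ≤ q) :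
    ∑ c ∈ Finset.range q, ‖WW h b M ((c : ℝ) / q)‖ ^ 2 = M * q := by
  have key : (∑ c ∈ Finset.range q, ((‖WW h b M ((c : ℝ) / q)‖ ^ 2 : ℝ) : ℂ)) = ((M * q : ℝ) : ℂ) := by
    have h1 : ∀ c ∈ Finset.range q, ((‖WW h b M ((c : ℝ) / q)‖ ^ 2 : ℝ) : ℂ) =
        ∑ i ∈ Finset.range M, ∑ j ∈ Finset.range M,
          ee ((((h : ℤ) * b ^ i - h * b ^ j : ℤ) : ℝ) * ((c : ℝ) / q)) := by
      intro c _
      have h2 : ((‖WW h b M ((c : ℝ) / q)‖ ^ 2 : ℝ) : ℂ) =
          WW h b M ((c : ℝ) / q) * (starRingEnd ℂ) (WW h b M ((c : ℝ) / q)) := by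
        rw [Complex.mul_conj, Complex.normSq_eq_norm_sq]
      rw [h2]
      unfold WW
      rw [map_sum, Finset.sum_mul_sum]
      apply Finset.sum_congr rfl
      intro i _
      apply Finset.sum_congr rfl
      intro j _
      rw [← ee_neg, ← ee_add]
      congr 1
      push_cast
      ring
    rw [Finset.sum_congr rfl h1, Finset.sum_comm]
    have h3 : ∀ i ∈ Finset.range M, ∑ c ∈ Finset.range q, ∑ j ∈ Finset.range M,
        ee ((((h : ℤ) * b ^ i - h * b ^ j : ℤ) : ℝ) * ((c : ℝ) / q)) = (q : ℂ) := by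
      intro i hi
      rw [Finset.sum_comm]
      rw [Finset.sum_eq_single i]
      · simp only [sub_self, Int.cast_zero, zero_mul]
        have : ee 0 = 1 := by simpa using ee_int 0
        rw [this]; simp
      · intro j hj hji
        apply geom_zero
        · intro h0
          have h4 : (h : ℤ) * b ^ i = h * b ^ j := by linarith
          have h5 : (h : ℤ) ≠ 0 := by positivity
          have h6 := mul_left_cancel₀ h5 h4
          have h7 : b ^ i = b ^ j := by exact_mod_cast h6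
          exact hji (Nat.pow_right_injective hb h7).symm
        · have hi' := Finset.mem_range.mp hi
          have hj' := Finset.mem_range.mp hj
          have h8 : ∀ l, l < M → (0 : ℤ) < h * b ^ l ∧ (h : ℤ) * b ^ l < q := by
            intro l hl
            refine ⟨by positivity, ?_⟩
            have h9 : b ^ l < b ^ M := Nat.pow_lt_pow_right (by omega) hl
            have h10 : h * b ^ l < h * b ^ M := Nat.mul_lt_mul_of_pos_left h9 (by omega)
            exact_mod_cast lt_of_lt_of_le h10 hq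
          have h11 := h8 i hi'
          have h12 := h8 j hj'
          rw [abs_lt]
          constructor <;> linarith [h11.1, h11.2, h12.1, h12.2]
      · intro hni; exact absurd hi hni
    rw [Finset.sum_congr rfl h3]
    simp
  exact_mod_cast key

theorem WW_lip (h b M : ℕ) (hb : 1 ≤ b) (x y : ℝ) :
    ‖WW h b M x - WW h b M y‖ ≤ 7 * h * M * (b : ℝ) ^ M * |x - y| := by
  unfold WW
  rw [← Finset.sum_sub_distrib]
  refine (norm_sum_le _ _).trans ?_
  have hb' : (1 : ℝ) ≤ b := by exact_mod_cast hb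
  have h1 : ∀ j ∈ Finset.range M, ‖ee (h * (x * (b : ℝ) ^ j)) - ee (h * (y * (b : ℝ) ^ j))‖ ≤
      7 * h * (b : ℝ) ^ M * |x - y| := by
    intro j hj
    refine (ee_sub_le _ _).trans ?_
    have h2 : (h : ℝ) * (x * (b : ℝ) ^ j) - h * (y * (b : ℝ) ^ j) = h * (b : ℝ) ^ j * (x - y) := by ring
    rw [h2, abs_mul, abs_of_nonneg (by positivity : (0 : ℝ) ≤ h * (b : ℝ) ^ j)]
    have h3 : (b : ℝ) ^ j ≤ (b : ℝ) ^ M := pow_le_pow_right₀ hb' (Finset.mem_range.mp hj).le
    have h4 : 2 * Real.pi ≤ 7 := by linarith [Real.pi_lt_d2]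
    have h5 : (0 : ℝ) ≤ |x - y| := abs_nonneg _
    have h6 : (0 : ℝ) ≤ h := by positivity
    have h7 : (0 : ℝ) ≤ (b : ℝ) ^ j := by positivity
    calc 2 * Real.pi * (h * (b : ℝ) ^ j * |x - y|) ≤ 7 * (h * (b : ℝ) ^ j * |x - y|) := by
          apply mul_le_mul_of_nonneg_right h4; positivity
      _ ≤ 7 * (h * (b : ℝ) ^ M * |x - y|) := by
          apply mul_le_mul_of_nonneg_left _ (by norm_num)
          apply mul_le_mul_of_nonneg_right _ h5
          exact mul_le_mul_of_nonneg_left h3 h6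
      _ = _ := by ring
  refine (Finset.sum_le_sum h1).trans (le_of_eq ?_)
  rw [Finset.sum_const, Finset.card_range, nsmul_eq_mul]
  ring

theorem WW_norm_le (h b M : ℕ) (x : ℝ) : ‖WW h b M x‖ ≤ M := by
  unfold WW
  refine (norm_sum_le _ _).trans (le_of_eq ?_)
  simp [ee_norm]

theorem continuous_ee : Continuous ee := by unfold ee; fun_prop

theorem continuous_WW (h b M : ℕ) : Continuous (WW h b M) := by
  unfold WW
  refine continuous_finsetSum _ fun j _ => ?_
  exact continuous_ee.comp (by fun_prop)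

theorem lint_AA (S : Set ℕ) (m : ℕ) (f : ℕ → ENNReal) :
    ∫⁻ ω, f (AA S ω m) ∂PP ≤ (1 / 2) ^ (fr S m).card * ∑ c ∈ Finset.range (2 ^ m), f c := by
  classical
  have h1 : ∀ ω, f (AA S ω m) = ∑ c ∈ Finset.range (2 ^ m),
      Set.indicator {ω | AA S ω m = c} (fun _ => f c) ω := by
    intro ω
    rw [Finset.sum_eq_single (AA S ω m)]
    · rw [Set.indicator_of_mem]; rfl
    · intro c _ hc
      rw [Set.indicator_of_notMem]
      intro h'
      exact hc h'.symm
    · intro h'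
      exact absurd (Finset.mem_range.mpr (AA_lt S ω m)) h'
  simp only [h1]
  rw [lintegral_finsetSum]
  · rw [Finset.mul_sum]
    apply Finset.sum_le_sum
    intro c _
    rw [lintegral_indicator_const]
    · rw [mul_comm]
      exact mul_le_mul_left (PP_AA_le S m c) _
    · exact (measurable_AA S m) (measurableSet_singleton c)
  · intro c _
    exact measurable_const.indicator ((measurable_AA S m) (measurableSet_singleton c))

theorem moment (S : Set ℕ) (h b M m : ℕ) (hh : 1 ≤ h) (hb : 2 ≤ b) (hM : 1 ≤ M)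
    (hm : 7 * h * M * b ^ M ≤ 2 ^ m) :
    ∫⁻ ω, ENNReal.ofReal (‖WW h b M (X S ω)‖ ^ 2) ∂PP ≤
      ENNReal.ofReal (2 * 2 ^ (kf S m) * M + 2) := by
  have hpt : ∀ ω, ENNReal.ofReal (‖WW h b M (X S ω)‖ ^ 2) ≤
      ENNReal.ofReal (2 * ‖WW h b M ((AA S ω m : ℝ) / ((2 ^ m : ℕ) : ℝ))‖ ^ 2) + ENNReal.ofReal 2 := by
    intro ω
    rw [← ENNReal.ofReal_add (by positivity) (by norm_num)]
    apply ENNReal.ofReal_le_ofReal
    have h1 := WW_lip h b M (by omega) (X S ω) ((AA S ω m : ℝ) / ((2 ^ m : ℕ) : ℝ))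
    have h2 := X_bounds S ω m
    have hp : (0 : ℝ) < 2 ^ m := by positivity
    have h3 : |X S ω - (AA S ω m : ℝ) / ((2 ^ m : ℕ) : ℝ)| ≤ 1 / 2 ^ m := by
      push_cast
      rw [abs_le]
      rw [add_div] at h2
      constructor
      · have : (0 : ℝ) ≤ 1 / 2 ^ m := by positivity
        linarith [h2.1]
      · linarith [h2.2]
    have h4 : (7 * h * M * (b : ℝ) ^ M) ≤ 2 ^ m := by exact_mod_cast hm
    have h5 : ‖WW h b M (X S ω) - WW h b M ((AA S ω m : ℝ) / ((2 ^ m : ℕ) : ℝ))‖ ≤ 1 := by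
      refine h1.trans ?_
      calc 7 * h * M * (b : ℝ) ^ M * |X S ω - (AA S ω m : ℝ) / ((2 ^ m : ℕ) : ℝ)|
          ≤ 2 ^ m * (1 / 2 ^ m) := by
            apply mul_le_mul h4 h3 (abs_nonneg _) hp.le
        _ = 1 := by field_simp
    have h6 : ‖WW h b M (X S ω)‖ ≤ ‖WW h b M ((AA S ω m : ℝ) / ((2 ^ m : ℕ) : ℝ))‖ + 1 := by
      have := norm_le_norm_add_norm_sub' (WW h b M (X S ω)) (WW h b M ((AA S ω m : ℝ) / ((2 ^ m : ℕ) : ℝ)))
      linarith
    have h7 := norm_nonneg (WW h b M (X S ω))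
    have h8 := norm_nonneg (WW h b M ((AA S ω m : ℝ) / ((2 ^ m : ℕ) : ℝ)))
    nlinarith [sq_nonneg (‖WW h b M ((AA S ω m : ℝ) / ((2 ^ m : ℕ) : ℝ))‖ - 1)]
  refine (lintegral_mono hpt).trans ?_
  rw [lintegral_add_right _ measurable_const, lintegral_const, measure_univ, mul_one]
  have h1 := lint_AA S m (fun c => ENNReal.ofReal (2 * ‖WW h b M ((c : ℝ) / ((2 ^ m : ℕ) : ℝ))‖ ^ 2))
  rw [ENNReal.ofReal_add (by positivity) (by norm_num)]
  refine add_le_add (h1.trans ?_) le_rfl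
  rw [← ENNReal.ofReal_sum_of_nonneg (fun _ _ => by positivity), ← Finset.mul_sum,
    orth h b M (2 ^ m) hh hb]
  · have h2 : ((1 : ENNReal) / 2) ^ (fr S m).card = ENNReal.ofReal ((1 / 2) ^ (fr S m).card) := by
      rw [ENNReal.ofReal_pow (by norm_num)]
      congr 1
      rw [ENNReal.ofReal_div_of_pos (by norm_num)]
      simp
    rw [h2, ← ENNReal.ofReal_mul (by positivity)]
    apply ENNReal.ofReal_le_ofReal
    have h3 := card_fr S m
    have h4 : ((1 : ℝ) / 2) ^ (fr S m).card * 2 ^ m = 2 ^ (kf S m) := by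
      have h5 : (2 : ℝ) ^ m = 2 ^ (fr S m).card * 2 ^ (kf S m) := by
        rw [← pow_add, h3]
      rw [h5, ← mul_assoc, ← mul_pow]
      norm_num
    push_cast
    calc ((1 : ℝ) / 2) ^ (fr S m).card * (2 * (M * 2 ^ m))
        = 2 * (((1 : ℝ) / 2) ^ (fr S m).card * 2 ^ m) * M := by ring
      _ = 2 * 2 ^ (kf S m) * M := by rw [h4]
      _ ≤ _ := le_rfl
  · refine le_trans ?_ hm
    have h9 : 1 ≤ 7 * M := by omega
    calc h * b ^ M ≤ (7 * M) * (h * b ^ M) := Nat.le_mul_of_pos_left _ (by omega)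
      _ = 7 * h * M * b ^ M := by ring

end Pool.Agent.Helper783_UN
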